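import Pool.Agent.N522.CT.Defs

/-!
# MP_3d72f2_ag: finite fundamental groups, lower dimensions, and irreducible factors
-/

open Pool.Agent.N522.CT

/-- (1) If Q1 holds in some dimension `N ≥ n ≥ 3`, then the varieties of dimension `n` with finite
fundamental group have finitely many topological types.  Hence if Q1 holds in infinitely many
dimensions this holds in all dimensions `n ≥ 3`.  (2) If the irreducible simply connected varieties
of dimension `d` have finitely many types for `3 ≤ d ≤ n`, then so have all simply connected ones of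
dimension `n`. -/
theorem Pool.Agent.Results.MP_3d72f2_ag.DimensionShift.result :
    ∀ T : Theory, Facts T →
      (∀ n N : ℕ, 3 ≤ n → n ≤ N → Q1 T N → (types T n T.FinPi).Finite) ∧
      ((∀ M : ℕ, ∃ N, M ≤ N ∧ Q1 T N) → ∀ n : ℕ, 3 ≤ n → (types T n T.FinPi).Finite) ∧
      (∀ n : ℕ, (∀ d : ℕ, 3 ≤ d → d ≤ n → (types T d T.Irr).Finite) →
        (types T n T.SC).Finite) := by
  intro T F
  have h1 : ∀ n N : ℕ, 3 ≤ n → n ≤ N → Q1 T N → (types T n T.FinPi).Finite := by
    intro n N hn hN h
    obtain ⟨m, rfl⟩ := Nat.exists_eq_add_of_le hN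
    exact finPi_of_q1 F n m hn h
  refine ⟨h1, fun h n hn => ?_, fun n h => sc_of_irr F n h⟩
  obtain ⟨N, hN, hQ⟩ := h n
  exact h1 n N hn hN hQ
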